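import Pool.Agent.Lib.PrimePairs

/-!
# A lower bound for the least admissible prime

There is `c > 0` such that for infinitely many `n` the number `n ^ 2 - n + p` is composite for all
primes `p ≤ c log n log log n`.

Proof. Let `y = 2 ^ (24 j)`, `K = 24 j y`, and let `n + 1` be divisible by all primes `q ≤ y` and by
all primes `q` with `y < q ≤ K + 2` for which `q - 2` is a prime. If `p ≤ K` is a prime then `p + 2`
has a prime factor `q` among these (the least prime factor, which is at most `y` unless `p + 2` is a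
prime), and `q` divides `n ^ 2 - n + p = (n + 1) (n - 2) + (p + 2)`. By Selberg's upper bound for the
number of prime pairs there is such an `n` with `K < n ≤ exp (B y)`.
-/

set_option autoImplicit false

namespace Pool.Agent.Results.MP_43626e_nt.LeastPrimeLower

open Finset
open Pool.Agent.Lib.PrimePairs

/-- The primes `q` in `(y, K + 2]` for which `q - 2` is a prime. -/
def T (y K : ℕ) : Finset ℕ := (Finset.Ioc y (K + 2)).filter (fun q => q.Prime ∧ (q - 2).Prime)

theorem mem_T {y K q : ℕ} : q ∈ T y K ↔ (y < q ∧ q ≤ K + 2) ∧ q.Prime ∧ (q - 2).Prime := by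
  unfold T
  rw [Finset.mem_filter, Finset.mem_Ioc]

theorem arith {y K n : ℕ} (hK : K + 2 ≤ y ^ 2) (hn : K + 2 < n)
    (h1 : primorial y ∣ n + 1) (h2 : ∀ q ∈ T y K, q ∣ n + 1) {p : ℕ} (hp : p.Prime) (hpK : p ≤ K) :
    ¬ (n ^ 2 - n + p).Prime := by
  intro b
  obtain ⟨q, hq, hqn, hqp⟩ : ∃ q : ℕ, q.Prime ∧ q ∣ n + 1 ∧ q ∣ p + 2 := by
    by_cases hm : (p + 2).Prime
    · by_cases hy : p + 2 ≤ y
      · exact ⟨p + 2, hm, (hm.dvd_primorial_iff.2 hy).trans h1, dvd_rfl⟩
      · refine ⟨p + 2, hm, h2 _ (mem_T.2 ⟨⟨by omega, by omega⟩, hm, ?_⟩), dvd_rfl⟩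
        rw [Nat.add_sub_cancel]
        exact hp
    · have hq := Nat.minFac_prime (n := p + 2) (by omega)
      have hq2 : (p + 2).minFac ^ 2 ≤ p + 2 := Nat.minFac_sq_le_self (by omega) hm
      have hqy : (p + 2).minFac ≤ y := by
        by_contra hcon
        push Not at hcon
        have h5 : y ^ 2 < (p + 2).minFac ^ 2 := Nat.pow_lt_pow_left hcon two_ne_zero
        omega
      exact ⟨_, hq, (hq.dvd_primorial_iff.2 hqy).trans h1, Nat.minFac_dvd _⟩
  have e : n ^ 2 - n + p = (n + 1) * (n - 2) + (p + 2) := by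
    obtain ⟨m, rfl⟩ : ∃ m, n = m + 2 := ⟨n - 2, by omega⟩
    have e1 : (m + 2) ^ 2 = (m + 2 + 1) * (m + 2 - 2) + 2 + (m + 2) := by
      rw [Nat.add_sub_cancel]
      ring
    rw [e1]
    omega
  have h5 : q ∣ n ^ 2 - n + p := by
    rw [e]
    exact Nat.dvd_add (hqn.mul_right _) hqp
  have h6 := (Nat.prime_dvd_prime_iff_eq hq b).1 h5
  have h7 : q ≤ p + 2 := Nat.le_of_dvd (by omega) hqp
  have h8 : n + n ≤ n ^ 2 := by nlinarith
  omega

/-- The choice of `n`. -/
theorem exists_n (y K : ℕ) : ∃ n : ℕ, K + 2 < n ∧ primorial y ∣ n + 1 ∧ (∀ q ∈ T y K, q ∣ n + 1) ∧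
    n ≤ primorial y * (∏ q ∈ T y K, q) * (K + 4) := by
  have hQ : 0 < primorial y := primorial_pos y
  have hR : 0 < ∏ q ∈ T y K, q := Finset.prod_pos fun q hq => (mem_T.1 hq).2.1.pos
  set Q := primorial y with hQd
  set R := ∏ q ∈ T y K, q with hRd
  have hQR : 0 < Q * R := Nat.mul_pos hQ hR
  have hge : K + 4 ≤ Q * R * (K + 4) := Nat.le_mul_of_pos_left _ hQR
  have e : Q * R * (K + 4) - 1 + 1 = Q * R * (K + 4) := by omega
  refine ⟨Q * R * (K + 4) - 1, by omega, ?_, ?_, by omega⟩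
  · rw [e]
    exact (Dvd.intro _ rfl).mul_right _
  · intro q hq
    rw [e]
    exact ((Finset.dvd_prod_of_mem _ hq).mul_left Q).mul_right _

/-- The number of the twin primes. -/
theorem card_T_le (j : ℕ) (hj : 1 ≤ j) :
    ((T (2 ^ (24 * j)) (24 * j * 2 ^ (24 * j))).card : ℝ) ≤
      8 * F 4 ^ 2 * (24 * j * 2 ^ (24 * j) : ℕ) / Real.log ((2 ^ j : ℕ) : ℝ) ^ 2 +
        ((2 ^ j : ℕ) : ℝ) ^ 12 := by
  have h2 : 2 ≤ 2 ^ j := by
    calc 2 = 2 ^ 1 := rfl
      _ ≤ 2 ^ j := Nat.pow_le_pow_right (by norm_num) hj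
  have h3 : (2 ^ j) ^ 2 ≤ 2 ^ (24 * j) - 2 := by
    have e1 : (2 ^ j) ^ 2 = 2 ^ (2 * j) := by rw [← pow_mul, mul_comm]
    have e2 : 2 ^ (2 * j) * 2 ≤ 2 ^ (24 * j) := by
      rw [← pow_succ]
      exact Nat.pow_le_pow_right (by norm_num) (by omega)
    have e3 : 4 ≤ 2 ^ (2 * j) := by
      calc 4 = 2 ^ 2 := rfl
        _ ≤ 2 ^ (2 * j) := Nat.pow_le_pow_right (by norm_num) (by omega)
    rw [e1]
    omega
  have h4 : 2 ≤ 2 ^ (24 * j) := by
    calc 2 = 2 ^ 1 := rfl
      _ ≤ 2 ^ (24 * j) := Nat.pow_le_pow_right (by norm_num) (by omega)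
  have h := card_prime_pairs_le (2 ^ (24 * j) - 2) (24 * j * 2 ^ (24 * j)) 2 (2 ^ j) (by norm_num)
    h2 h3
  refine le_trans ?_ h
  rw [Nat.cast_le]
  refine Finset.card_le_card_of_injOn (fun q => q - 2) ?_ ?_
  · intro q hq
    rw [Finset.mem_coe] at hq
    obtain ⟨⟨a1, a2⟩, a3, a4⟩ := mem_T.1 hq
    rw [Finset.mem_coe, Finset.mem_filter, Finset.mem_Ioc]
    have h5 : q - 2 + 2 = q := by
      have := a4.two_le
      omega
    refine ⟨⟨?_, ?_⟩, a4, ?_⟩
    · show 2 ^ (24 * j) - 2 < q - 2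
      have := a4.two_le
      omega
    · show q - 2 ≤ _
      omega
    · show (q - 2 + 2).Prime
      rw [h5]
      exact a3
  · intro p hp q hq hpq
    rw [Finset.mem_coe] at hp hq
    have h5 := (mem_T.1 hp).2.2.two_le
    have h6 := (mem_T.1 hq).2.2.two_le
    have h7 : p - 2 = q - 2 := hpq
    omega

/-- There is `c > 0` such that for infinitely many `n` the number `n ^ 2 - n + p` is not prime for
any prime `p ≤ c log n log log n`. -/
theorem result : ∃ c : ℝ, 0 < c ∧ ∀ N : ℕ, ∃ n : ℕ, N < n ∧ ∀ p : ℕ, p.Prime →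
    (p : ℝ) ≤ c * Real.log n * Real.log (Real.log n) → ¬ (n ^ 2 - n + p).Prime := by
  set A : ℝ := 8 * F 4 ^ 2 / Real.log 2 ^ 2 with hA
  have hA0 : 0 ≤ A := by positivity
  set B : ℝ := 1152 * A + 200 with hB
  have hB1 : 1 ≤ B := by linarith
  have hB0 : 0 < B := by linarith
  have hlB : 0 ≤ Real.log B := Real.log_nonneg hB1
  refine ⟨24 / (B * (Real.log B + 24)), by positivity, fun N => ?_⟩
  obtain ⟨j, hj, hjN⟩ : ∃ j : ℕ, 1 ≤ j ∧ N < j := ⟨N + 1, by omega, by omega⟩
  set y : ℕ := 2 ^ (24 * j) with hy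
  set K : ℕ := 24 * j * 2 ^ (24 * j) with hK
  have hyK' : K = 24 * j * y := rfl
  have hy24 : 24 * j < y := Nat.lt_two_pow_self
  have hyK : y ≤ K := by
    rw [hyK']
    exact Nat.le_mul_of_pos_left _ (by omega)
  have hKy : K + 2 ≤ y ^ 2 := by
    have e : y ^ 2 = y * y := sq y
    have e1 : (24 * j + 1) * y ≤ y * y := Nat.mul_le_mul_right _ hy24
    have e2 : (24 * j + 1) * y = 24 * j * y + y := by ring
    rw [e, hyK']
    omega
  obtain ⟨n, hn, h1, h2, h3⟩ := exists_n y K
  have hjK : j ≤ K := by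
    rw [hyK']
    nlinarith
  refine ⟨n, by omega, fun p hp hpc => ?_⟩
  refine arith hKy hn h1 h2 hp ?_
  -- the bound for `log n`
  have hjr : (1 : ℝ) ≤ j := by exact_mod_cast hj
  have hj0 : (0 : ℝ) < j := by linarith
  have hlog2 : 0 < Real.log 2 := Real.log_pos (by norm_num)
  have hlog2' : Real.log 2 ≤ 1 := by
    have := Real.log_two_lt_d9
    linarith
  have hyr : (y : ℝ) = 2 ^ (24 * j) := by
    rw [hy]
    push_cast
    rfl
  have hy1 : (1 : ℝ) ≤ y := by
    rw [hyr]
    exact one_le_pow₀ (by norm_num)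
  have hlogy : Real.log y = 24 * j * Real.log 2 := by
    rw [hyr, Real.log_pow]
    push_cast
    ring
  have hjy : (j : ℝ) ≤ y := by
    have : j ≤ y := by omega
    exact_mod_cast this
  have hKr : (K : ℝ) = 24 * j * y := by
    rw [hyK']
    push_cast
    ring
  have hcard := card_T_le j hj
  have hcard' : ((T y K).card : ℝ) ≤ 24 * A * y / j + 2 ^ (12 * j) := by
    refine hcard.trans (le_of_eq ?_)
    rw [← hK, hKr]
    push_cast
    rw [Real.log_pow, hA, ← pow_mul, mul_comm j 12]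
    congr 1
    field_simp
  have h12 : (j : ℝ) * 2 ^ (12 * j) ≤ y := by
    have e : (2 : ℝ) ^ (24 * j) = 2 ^ (12 * j) * 2 ^ (12 * j) := by
      rw [← pow_add]
      congr 1
      ring
    rw [hyr, e]
    have h5 : (j : ℝ) ≤ 2 ^ (12 * j) := by
      have h6 : 12 * j < 2 ^ (12 * j) := Nat.lt_two_pow_self
      have h7 : j ≤ 2 ^ (12 * j) := by omega
      exact_mod_cast h7
    exact mul_le_mul_of_nonneg_right h5 (by positivity)
  have hK3 : Real.log ((K + 4 : ℕ) : ℝ) ≤ 48 * j := by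
    have h5 : K + 4 ≤ 2 ^ (48 * j) := by
      have e : 2 ^ (48 * j) = y * y := by
        rw [hy, ← pow_add]
        congr 1
        ring
      have e1 : (24 * j + 1) * y ≤ y * y := Nat.mul_le_mul_right _ hy24
      have e2 : (24 * j + 1) * y = 24 * j * y + y := by ring
      rw [e, hyK']
      omega
    calc Real.log ((K + 4 : ℕ) : ℝ) ≤ Real.log ((2 ^ (48 * j) : ℕ) : ℝ) :=
          Real.log_le_log (by positivity) (by exact_mod_cast h5)
      _ = 48 * j * Real.log 2 := by
          push_cast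
          rw [Real.log_pow]
          push_cast
          ring
      _ ≤ 48 * j * 1 := by gcongr
      _ = 48 * j := by ring
  have hlogK : Real.log ((K + 2 : ℕ) : ℝ) ≤ 48 * j := by
    refine le_trans (Real.log_le_log (by positivity) ?_) hK3
    exact_mod_cast (by omega : K + 2 ≤ K + 4)
  have hRle : (∏ q ∈ T y K, q : ℕ) ≤ (K + 2) ^ (T y K).card :=
    Finset.prod_le_pow_card _ _ _ fun q hq => (mem_T.1 hq).1.2
  have hR0 : 0 < ∏ q ∈ T y K, q := Finset.prod_pos fun q hq => (mem_T.1 hq).2.1.pos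
  have hlogR : Real.log ((∏ q ∈ T y K, q : ℕ) : ℝ) ≤ (T y K).card * (48 * j) := by
    calc Real.log ((∏ q ∈ T y K, q : ℕ) : ℝ) ≤ Real.log (((K + 2) ^ (T y K).card : ℕ) : ℝ) :=
          Real.log_le_log (by exact_mod_cast hR0) (by exact_mod_cast hRle)
      _ = (T y K).card * Real.log ((K + 2 : ℕ) : ℝ) := by
          rw [Nat.cast_pow, Real.log_pow]
      _ ≤ (T y K).card * (48 * j) := by gcongr
  have hlogQ : Real.log (primorial y : ℝ) ≤ y * 2 := by
    have h5 : (primorial y : ℝ) ≤ 4 ^ y := by exact_mod_cast primorial_le_four_pow y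
    calc Real.log (primorial y : ℝ) ≤ Real.log (4 ^ y) :=
          Real.log_le_log (by exact_mod_cast primorial_pos y) h5
      _ = y * Real.log 4 := Real.log_pow _ _
      _ ≤ y * 2 := by
          have e : (4 : ℝ) = 2 ^ 2 := by norm_num
          have h6 : Real.log 4 ≤ 2 := by
            rw [e, Real.log_pow]
            push_cast
            linarith
          gcongr
  have hn0 : 0 < n := by omega
  have hlogn : Real.log n ≤ B * y := by
    have h5 : (n : ℝ) ≤ (primorial y : ℝ) * ((∏ q ∈ T y K, q : ℕ) : ℝ) * ((K + 4 : ℕ) : ℝ) := by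
      exact_mod_cast h3
    have hQp : (0 : ℝ) < primorial y := by exact_mod_cast primorial_pos y
    have hRp : (0 : ℝ) < ((∏ q ∈ T y K, q : ℕ) : ℝ) := by exact_mod_cast hR0
    have hKp : (0 : ℝ) < ((K + 4 : ℕ) : ℝ) := by positivity
    have h6 : Real.log n ≤ Real.log (primorial y : ℝ) +
        Real.log ((∏ q ∈ T y K, q : ℕ) : ℝ) + Real.log ((K + 4 : ℕ) : ℝ) := by
      rw [← Real.log_mul hQp.ne' hRp.ne', ← Real.log_mul (by positivity) hKp.ne']
      exact Real.log_le_log (by exact_mod_cast hn0) h5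
    have h7 : ((T y K).card : ℝ) * (48 * j) ≤ 1152 * A * y + 48 * y := by
      calc ((T y K).card : ℝ) * (48 * j) ≤ (24 * A * y / j + 2 ^ (12 * j)) * (48 * j) := by
            gcongr
        _ = 1152 * A * y + 48 * (j * 2 ^ (12 * j)) := by
            field_simp
            ring
        _ ≤ 1152 * A * y + 48 * y := by linarith
    rw [hB]
    nlinarith
  -- the end
  have hlogn0 : 0 ≤ Real.log n := Real.log_natCast_nonneg n
  have hll : Real.log (Real.log n) ≤ (Real.log B + 24) * j := by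
    rcases hlogn0.eq_or_lt with h | h
    · rw [← h, Real.log_zero]
      positivity
    · calc Real.log (Real.log n) ≤ Real.log (B * y) := Real.log_le_log h hlogn
        _ = Real.log B + 24 * j * Real.log 2 := by
            rw [Real.log_mul hB0.ne' (by positivity), hlogy]
        _ ≤ Real.log B * j + 24 * j * 1 := by
            have e1 : Real.log B * 1 ≤ Real.log B * j := mul_le_mul_of_nonneg_left hjr hlB
            have e2 : 24 * (j : ℝ) * Real.log 2 ≤ 24 * j * 1 := by gcongr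
            linarith
        _ = (Real.log B + 24) * j := by ring
  have hfin : (p : ℝ) ≤ K := by
    refine hpc.trans ?_
    have hc0 : 0 < B * (Real.log B + 24) := by positivity
    calc 24 / (B * (Real.log B + 24)) * Real.log n * Real.log (Real.log n)
        ≤ 24 / (B * (Real.log B + 24)) * Real.log n * ((Real.log B + 24) * j) := by
          gcongr
      _ ≤ 24 / (B * (Real.log B + 24)) * (B * y) * ((Real.log B + 24) * j) := by
          gcongr
      _ = 24 * j * y := by
          field_simp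
      _ = K := hKr.symm
  exact_mod_cast hfin

end Pool.Agent.Results.MP_43626e_nt.LeastPrimeLower
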