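import Mathlib
import Pool.Agent.HwS.AppSun
import Pool.Agent.HwS.Exi

open MeasureTheory ProbabilityTheory Filter Topology

namespace Pool.Agent.Results.MP_43626e_nt.RandomSieve

open Pool.Agent.HwS

theorem result :
    (∃ (Ω : Type) (_ : MeasurableSpace Ω) (μ : Measure Ω) (_ : IsProbabilityMeasure μ)
      (S : ℕ → ℕ → Set Ω), IsStrikes μ S) ∧
    ∀ (Ω : Type) [MeasurableSpace Ω] (μ : Measure Ω) [IsProbabilityMeasure μ]
      (S : ℕ → ℕ → Set Ω), IsStrikes μ S → ∀ z : ℕ, 2 ≤ z → ∀ᵐ ω ∂μ,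
      ∀ᶠ n : ℕ in atTop, ∃ p : ℕ, p < n ∧ Sel z (Kof S ω) p ∧
        Sel z (Kof S ω) (n ^ 2 - n + p) ∧ Sel z (Kof S ω) (n ^ 2 + n - p) :=
  ⟨exists_strikes, fun _ _ _ _ _ hS z hz => sun2 hS z hz⟩

end Pool.Agent.Results.MP_43626e_nt.RandomSieve
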